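import Pool.Agent.Work.MP_e25190_gt.All

/-! Growth of `D(R) = diam_c (Lip_1 (B_H^n(R) → S))`, `n = m + 1`, for every compact length space
`S`: bounded when paths in `S` can be uniformly shortened, between `R` and `2 R + diam S`
otherwise; for locally Lipschitz contractible `S` the first case is the case of a finite
fundamental group. -/

open Set Metric
open scoped NNReal
open Pool.Agent.Work.MP_e25190_gt

theorem Pool.Agent.Results.MP_e25190_gt.AllSpaces.result {S : Type*} [MetricSpace S]
    [CompactSpace S] (hL : IsLengthSpace S) :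
    (Shortenable S → ∀ m : ℕ, ∃ C : ℝ, ∀ c : ℝ≥0, 1 ≤ c → ∀ (o : Hyp m) (R : ℝ), 0 ≤ R →
      lipDiam (closedBall o R) S c ≤ ENNReal.ofReal C) ∧
    (¬ Shortenable S → ∀ (m : ℕ) (c : ℝ≥0), 1 ≤ c → ∀ (o : Hyp m) (R : ℝ), 0 ≤ R →
      ENNReal.ofReal R ≤ lipDiam (closedBall o R) S c ∧
      lipDiam (closedBall o R) S c ≤ ENNReal.ofReal (2 * R + diam (univ : Set S))) ∧
    (LocLipContractible S → ∀ s₀ : S, Shortenable S ↔ Finite (FundamentalGroup S s₀)) :=
  dichotomy_all hL
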